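import Mathlib

/-!
# Two sided lattice point count by cells (module MCT of the squad leo4)
-/

set_option autoImplicit false

open Filter Topology MeasureTheory Set Pointwise

namespace Pool.Agent.Leo4.H5

abbrev E2 : Type := ℝ × ℝ

/-- A discrete set with a cell. -/
structure Cell (L F : Set E2) (c : ℝ) : Prop where
  count : L.Countable
  meas : MeasurableSet F
  pos : 0 < volume F
  fin : volume F ≠ ⊤
  bd : ∀ x ∈ F, ‖x‖ ≤ c
  disj : ∀ p ∈ L, ∀ q ∈ L, p ≠ q → Disjoint ((fun x => p + x) '' F) ((fun x => q + x) '' F)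
  cov : ∀ x : E2, ∃ p ∈ L, x ∈ (fun x => p + x) '' F

theorem vol_cell (F : Set E2) (p : E2) : volume ((fun x => p + x) '' F) = volume F := by
  rw [Set.image_add_left, measure_preimage_add]

theorem meas_cell {F : Set E2} (hF : MeasurableSet F) (p : E2) :
    MeasurableSet ((fun x => p + x) '' F) := by
  rw [Set.image_add_left]
  exact hF.preimage (measurable_const_add _)

theorem card_mul {L F : Set E2} {c : ℝ} (h : Cell L F c) (T : Finset E2) (hT : (T : Set E2) ⊆ L) :
    (T.card : ENNReal) * volume F = volume (⋃ p ∈ T, (fun x => p + x) '' F) := by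
  rw [measure_biUnion_finset]
  · simp only [vol_cell]
    rw [Finset.sum_const, nsmul_eq_mul]
  · intro p hp q hq hpq
    exact h.disj p (hT hp) q (hT hq) hpq
  · intro p _
    exact meas_cell h.meas p

theorem vol_smul {t : ℝ} (ht : 0 < t) (X : Set E2) :
    volume (t • X) = ENNReal.ofReal (t ^ 2) * volume X := by
  rw [Measure.addHaar_smul]
  have hf : Module.finrank ℝ E2 = 2 := by simp [E2]
  rw [hf, abs_of_pos (by positivity)]

/-- the union of the cells of points of `t • K` is in `t • cthickening`. -/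
theorem cells_sub {L F : Set E2} {c : ℝ} (h : Cell L F c) (K : Set E2) {t : ℝ} (ht : 0 < t)
    (T : Finset E2) (hT : (T : Set E2) ⊆ L ∩ t • K) :
    (⋃ p ∈ T, (fun x => p + x) '' F) ⊆ t • Metric.cthickening (c / t) K := by
  intro z hz
  simp only [mem_iUnion, exists_prop] at hz
  obtain ⟨p, hp, x, hx, rfl⟩ := hz
  obtain ⟨hpL, k, hk, hkp⟩ := hT hp
  have hkp : t • k = p := hkp
  refine ⟨t⁻¹ • (p + x), ?_, ?_⟩
  · refine Metric.mem_cthickening_of_dist_le _ k _ _ hk ?_
    rw [← hkp, smul_add, smul_smul, inv_mul_cancel₀ ht.ne', one_smul, dist_eq_norm,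
      add_sub_cancel_left, norm_smul, norm_inv, Real.norm_eq_abs, abs_of_pos ht, div_eq_inv_mul]
    exact mul_le_mul_of_nonneg_left (h.bd x hx) (by positivity)
  · simp only
    rw [smul_smul, mul_inv_cancel₀ ht.ne', one_smul]

theorem fin_of_le {X : Set E2} {M : ℕ} (h : ∀ T : Finset E2, (T : Set E2) ⊆ X → T.card ≤ M) :
    X.Finite := by
  by_contra hX
  obtain ⟨T, hT, hc⟩ := (Set.Infinite.exists_subset_card_eq hX (M + 1))
  have := h T hT
  omega

theorem finite_inter {L F : Set E2} {c : ℝ} (h : Cell L F c) (K : Set E2) (hK : IsCompact K)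
    {t : ℝ} (ht : 0 < t) : (L ∩ t • K).Finite := by
  set W : ENNReal := volume (t • Metric.cthickening (c / t) K) with hW
  have hWfin : W ≠ ⊤ := by
    rw [hW, vol_smul ht]
    exact ENNReal.mul_ne_top ENNReal.ofReal_ne_top (hK.cthickening.measure_lt_top).ne
  obtain ⟨M, hM⟩ := ENNReal.exists_nat_gt (ENNReal.div_lt_top hWfin h.pos.ne').ne
  refine fin_of_le (M := M) fun T hT => ?_
  have h1 : (T.card : ENNReal) * volume F ≤ W := by
    rw [card_mul h T (fun p hp => (hT hp).1)]
    exact measure_mono (cells_sub h K ht T hT)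
  have h2 : (T.card : ENNReal) ≤ W / volume F := by
    rw [ENNReal.le_div_iff_mul_le (Or.inl h.pos.ne') (Or.inl h.fin)]
    exact h1
  have h3 : (T.card : ENNReal) < M := lt_of_le_of_lt h2 hM
  exact_mod_cast h3.le

theorem upper {L F : Set E2} {c : ℝ} (h : Cell L F c) (K : Set E2) (hK : IsCompact K)
    {ε : ℝ} (hε : 0 < ε) : ∀ᶠ t : ℝ in atTop,
      ((L ∩ t • K).ncard : ℝ) * (volume F).toReal ≤ ((volume K).toReal + ε) * t ^ 2 := by
  have h1 : Tendsto (fun t : ℝ => volume (Metric.cthickening (c / t) K)) atTop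
      (𝓝 (volume K)) := by
    have h2 := tendsto_measure_cthickening_of_isCompact (μ := (volume : Measure E2)) hK
    exact h2.comp (tendsto_const_nhds.div_atTop tendsto_id)
  have hKf : volume K ≠ ⊤ := hK.measure_lt_top.ne
  have h2 : ∀ᶠ t : ℝ in atTop, volume (Metric.cthickening (c / t) K) < volume K +
      ENNReal.ofReal ε :=
    h1.eventually_lt_const (ENNReal.lt_add_right hKf (by simpa using hε))
  filter_upwards [h2, eventually_gt_atTop (0 : ℝ)] with t ht1 ht0
  have hfin := finite_inter h K hK ht0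
  have h3 : ((hfin.toFinset.card : ℕ) : ENNReal) * volume F ≤
      volume (t • Metric.cthickening (c / t) K) := by
    rw [card_mul h hfin.toFinset (by
      intro p hp
      exact ((hfin.mem_toFinset).1 hp).1)]
    refine measure_mono (cells_sub h K ht0 hfin.toFinset ?_)
    intro p hp
    exact (hfin.mem_toFinset).1 hp
  rw [vol_smul ht0] at h3
  have h4 : ((hfin.toFinset.card : ℕ) : ENNReal) * volume F ≤
      ENNReal.ofReal (t ^ 2) * (volume K + ENNReal.ofReal ε) :=
    h3.trans (mul_le_mul_right ht1.le _)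
  have h5 := ENNReal.toReal_mono (ENNReal.mul_ne_top ENNReal.ofReal_ne_top
    (ENNReal.add_ne_top.2 ⟨hKf, ENNReal.ofReal_ne_top⟩)) h4
  rw [ENNReal.toReal_mul, ENNReal.toReal_mul, ENNReal.toReal_add hKf ENNReal.ofReal_ne_top,
    ENNReal.toReal_ofReal (by positivity), ENNReal.toReal_ofReal hε.le, ENNReal.toReal_natCast]
    at h5
  rw [Set.ncard_eq_toFinset_card _ hfin]
  linarith [h5]

theorem lower {L F : Set E2} {c : ℝ} (h : Cell L F c) (D U : Set E2) (hU : IsOpen U)
    (hUD : U ⊆ D) (hUf : volume U ≠ ⊤) (hfin : ∀ t : ℝ, 0 < t → (L ∩ t • D).Finite)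
    {ε : ℝ} (hε : 0 < ε) : ∀ᶠ t : ℝ in atTop,
      ((volume U).toReal - ε) * t ^ 2 ≤ ((L ∩ t • D).ncard : ℝ) * (volume F).toReal := by
  rcases le_or_gt (volume U).toReal ε with hc | hc
  · filter_upwards with t
    have h1 : ((volume U).toReal - ε) * t ^ 2 ≤ 0 :=
      mul_nonpos_of_nonpos_of_nonneg (by linarith) (by positivity)
    exact h1.trans (by positivity)
  · have h0 : ENNReal.ofReal ((volume U).toReal - ε) < volume U := by
      rw [ENNReal.ofReal_lt_iff_lt_toReal (by linarith) hUf]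
      linarith
    obtain ⟨K, hKU, hK, hKv⟩ := hU.exists_lt_isCompact h0
    obtain ⟨δ, hδ, hδU⟩ := hK.exists_thickening_subset_open hU hKU
    have hev : ∀ᶠ t : ℝ in atTop, c / t < δ :=
      (tendsto_const_nhds.div_atTop tendsto_id).eventually_lt_const hδ
    filter_upwards [hev, eventually_gt_atTop (0 : ℝ)] with t ht1 ht0
    have hf := hfin t ht0
    have hsub : t • K ⊆ ⋃ p ∈ hf.toFinset, (fun x => p + x) '' F := by
      rintro z ⟨k, hk, rfl⟩
      obtain ⟨p, hpL, x, hx, hpx⟩ := h.cov (t • k)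
      simp only at hpx
      simp only [mem_iUnion, exists_prop]
      refine ⟨p, ?_, x, hx, hpx⟩
      rw [hf.mem_toFinset]
      refine ⟨hpL, t⁻¹ • p, hUD (hδU ?_), ?_⟩
      · rw [Metric.mem_thickening_iff]
        refine ⟨k, hk, ?_⟩
        have hp : p = t • k - x := by rw [← hpx]; abel
        rw [hp, smul_sub, smul_smul, inv_mul_cancel₀ ht0.ne', one_smul, dist_eq_norm,
          sub_sub_cancel_left, norm_neg, norm_smul, norm_inv, Real.norm_eq_abs, abs_of_pos ht0,
          ← div_eq_inv_mul]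
        exact lt_of_le_of_lt (div_le_div_of_nonneg_right (h.bd x hx) ht0.le) ht1
      · simp only
        rw [smul_smul, mul_inv_cancel₀ ht0.ne', one_smul]
    have h3 : ENNReal.ofReal (t ^ 2) * volume K ≤ (hf.toFinset.card : ENNReal) * volume F := by
      rw [← vol_smul ht0, card_mul h hf.toFinset (fun p hp => ((hf.mem_toFinset).1 hp).1)]
      exact measure_mono hsub
    have h4 : ENNReal.ofReal (t ^ 2) * ENNReal.ofReal ((volume U).toReal - ε) ≤
        (hf.toFinset.card : ENNReal) * volume F :=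
      (mul_le_mul_right hKv.le _).trans h3
    have h5 := ENNReal.toReal_mono (ENNReal.mul_ne_top (ENNReal.natCast_ne_top _) h.fin) h4
    rw [ENNReal.toReal_mul, ENNReal.toReal_mul, ENNReal.toReal_ofReal (by positivity),
      ENNReal.toReal_ofReal (by linarith), ENNReal.toReal_natCast] at h5
    rw [Set.ncard_eq_toFinset_card _ hf]
    linarith [h5]

/-- The limit. -/
theorem limit {L F : Set E2} {c : ℝ} (h : Cell L F c) (D U K : Set E2) (hU : IsOpen U)
    (hUD : U ⊆ D) (hDK : D ⊆ K) (hK : IsCompact K) (hv : volume U = volume K) :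
    (∀ t : ℝ, 0 < t → (L ∩ t • D).Finite) ∧
    Tendsto (fun t : ℝ => ((L ∩ t • D).ncard : ℝ) / t ^ 2) atTop
      (𝓝 ((volume K).toReal / (volume F).toReal)) := by
  have hfin : ∀ t : ℝ, 0 < t → (L ∩ t • D).Finite := fun t ht =>
    (finite_inter h K hK ht).subset (inter_subset_inter_right _ (Set.smul_set_mono hDK))
  refine ⟨hfin, ?_⟩
  have hKf : volume K ≠ ⊤ := hK.measure_lt_top.ne
  have hF0 : 0 < (volume F).toReal := ENNReal.toReal_pos h.pos.ne' h.fin
  rw [Metric.tendsto_nhds]
  intro ε hε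
  have hε' : 0 < ε / 2 * (volume F).toReal := by positivity
  filter_upwards [upper h K hK hε', lower h D U hU hUD (hv ▸ hKf) hfin hε',
    eventually_gt_atTop (0 : ℝ)] with t h1 h2 h0
  rw [hv] at h2
  have h3 : ((L ∩ t • D).ncard : ℝ) ≤ ((L ∩ t • K).ncard : ℝ) := by
    exact_mod_cast Set.ncard_le_ncard (inter_subset_inter_right _ (Set.smul_set_mono hDK))
      (finite_inter h K hK h0)
  have ht2 : 0 < t ^ 2 := by positivity
  rw [Real.dist_eq, abs_lt]
  constructor
  · have h4 : (volume K).toReal / (volume F).toReal - ε / 2 ≤ ((L ∩ t • D).ncard : ℝ) / t ^ 2 := by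
      rw [le_div_iff₀ ht2, sub_mul, div_mul_eq_mul_div, sub_le_iff_le_add,
        div_le_iff₀ hF0]
      nlinarith [h2]
    linarith
  · have h4 : ((L ∩ t • D).ncard : ℝ) / t ^ 2 ≤ (volume K).toReal / (volume F).toReal + ε / 2 := by
      rw [div_le_iff₀ ht2, add_mul, div_mul_eq_mul_div]
      have h5 : ((L ∩ t • D).ncard : ℝ) * (volume F).toReal ≤
          ((volume K).toReal + ε / 2 * (volume F).toReal) * t ^ 2 :=
        (mul_le_mul_of_nonneg_right h3 hF0.le).trans h1
      have h6 : ((L ∩ t • D).ncard : ℝ) ≤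
          ((volume K).toReal + ε / 2 * (volume F).toReal) * t ^ 2 / (volume F).toReal := by
        rw [le_div_iff₀ hF0]; exact h5
      refine h6.trans (le_of_eq ?_)
      field_simp
    linarith

end Pool.Agent.Leo4.H5
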