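import Pool.Agent.Helper5_Leo4.Region
import Pool.Agent.Helper68_Leo4.Okr

/-!
# Module MCT of the squad leo4: the number of `m` in the classes
-/

set_option autoImplicit false

open Filter Topology MeasureTheory Set Pointwise

namespace Pool.Agent.Leo4.H5

open Pool.Agent.Leo4

/-! ### the classes modulo 24 -/

/-- the condition at 2 on coordinates. -/
def ck2 (a b : ℤ) : Prop :=
  ∃ u v : Fin 2, (4 : ℤ) ∣ a + (((u : ℕ) : ℤ) ^ 2 + ((v : ℕ) : ℤ) ^ 2) ∧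
    (4 : ℤ) ∣ b + (2 * ((u : ℕ) : ℤ) * ((v : ℕ) : ℤ) + ((v : ℕ) : ℤ) ^ 2) ∧
    ∀ p q : Fin 2, ¬ ((2 : ℤ) ∣ (((p : ℕ) : ℤ) ^ 2 + ((q : ℕ) : ℤ) ^ 2) +
        (((u : ℕ) : ℤ) * ((p : ℕ) : ℤ) + ((v : ℕ) : ℤ) * ((q : ℕ) : ℤ)) +
        (a + (((u : ℕ) : ℤ) ^ 2 + ((v : ℕ) : ℤ) ^ 2)) / 4 ∧
      (2 : ℤ) ∣ (2 * ((p : ℕ) : ℤ) * ((q : ℕ) : ℤ) + ((q : ℕ) : ℤ) ^ 2) +
        (((u : ℕ) : ℤ) * ((q : ℕ) : ℤ) + ((v : ℕ) : ℤ) * ((p : ℕ) : ℤ) +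
          ((v : ℕ) : ℤ) * ((q : ℕ) : ℤ)) +
        (b + (2 * ((u : ℕ) : ℤ) * ((v : ℕ) : ℤ) + ((v : ℕ) : ℤ) ^ 2)) / 4)

/-- the condition at 3 on coordinates. -/
def ck3 (a b : ℤ) : Prop :=
  ∀ p q : Fin 3, ¬ ((3 : ℤ) ∣ a - (((p : ℕ) : ℤ) ^ 2 + ((q : ℕ) : ℤ) ^ 2) ∧
    (3 : ℤ) ∣ b - (2 * ((p : ℕ) : ℤ) * ((q : ℕ) : ℤ) + ((q : ℕ) : ℤ) ^ 2))

instance (a b : ℤ) : Decidable (ck2 a b) := by unfold ck2; infer_instance

instance (a b : ℤ) : Decidable (ck3 a b) := by unfold ck3; infer_instance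

def SS : Finset (ℕ × ℕ) :=
  (Finset.range 24 ×ˢ Finset.range 24).filter fun r => ck2 (r.1 : ℤ) (r.2 : ℤ) ∧ ck3 (r.1 : ℤ) (r.2 : ℤ)

theorem card_SS : SS.card = 24 := by decide +kernel

/-- the element of `O` with small coordinates. -/
def sm (n : ℕ) (x : O) : O := ⟨x.re % n, x.im % n⟩

theorem sm_dvd (n : ℕ) (x : O) : ∃ y : O, x = sm n x + (n : O) * y := by
  refine ⟨⟨x.re / n, x.im / n⟩, ?_⟩
  ext
  · simp only [sm, QuadraticAlgebra.re_add, QuadraticAlgebra.re_mul, QuadraticAlgebra.re_natCast,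
      QuadraticAlgebra.im_natCast]
    have := Int.emod_add_mul_ediv x.re n
    linarith
  · simp only [sm, QuadraticAlgebra.im_add, QuadraticAlgebra.im_mul, QuadraticAlgebra.re_natCast,
      QuadraticAlgebra.im_natCast]
    have := Int.emod_add_mul_ediv x.im n
    linarith

theorem cls_congr {m k : O} (h : Cls m) : Cls (m + 24 * k) := by
  obtain ⟨⟨ν, c, h1, h2⟩, h3⟩ := h
  refine ⟨⟨ν, c + 6 * k, ?_, ?_⟩, ?_⟩
  · linear_combination h1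
  · intro x hx
    refine h2 x ?_
    have e : x ^ 2 + ν * x + c = (x ^ 2 + ν * x + (c + 6 * k)) - 2 * (3 * k) := by ring
    rw [e]
    exact dvd_sub hx (dvd_mul_right _ _)
  · intro x hx
    refine h3 x ?_
    have e : m - x ^ 2 = (m + 24 * k - x ^ 2) - 3 * (8 * k) := by ring
    rw [e]
    exact dvd_sub hx (dvd_mul_right _ _)

theorem cls_sm (m : O) : Cls m ↔ Cls (sm 24 m) := by
  obtain ⟨y, hy⟩ := sm_dvd 24 m
  have hy' : m = sm 24 m + 24 * y := by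
    have : ((24 : ℕ) : O) = 24 := by norm_num
    rw [← this]
    exact hy
  constructor
  · intro h
    have h1 := cls_congr (k := -y) h
    have h2 : m + 24 * (-y) = sm 24 m := by linear_combination hy'
    rwa [h2] at h1
  · intro h
    have h1 := cls_congr (k := y) h
    rwa [← hy'] at h1

theorem fin2 (z : ℤ) : ∃ u : Fin 2, ((u : ℕ) : ℤ) = z % 2 := by
  refine ⟨⟨(z % 2).toNat, ?_⟩, ?_⟩
  · omega
  · simp only
    omega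

theorem fin3 (z : ℤ) : ∃ u : Fin 3, ((u : ℕ) : ℤ) = z % 3 := by
  refine ⟨⟨(z % 3).toNat, ?_⟩, ?_⟩
  · omega
  · simp only
    omega

/-- small residue modulo 2. -/
theorem mod2 (x : O) : ∃ (p q : Fin 2) (y : O), x = (⟨((p : ℕ) : ℤ), ((q : ℕ) : ℤ)⟩ : O) + 2 * y := by
  obtain ⟨p, hp⟩ := fin2 x.re
  obtain ⟨q, hq⟩ := fin2 x.im
  obtain ⟨y, hy⟩ := sm_dvd 2 x
  refine ⟨p, q, y, ?_⟩
  rw [hp, hq]
  exact_mod_cast hy

theorem mod3 (x : O) : ∃ (p q : Fin 3) (y : O), x = (⟨((p : ℕ) : ℤ), ((q : ℕ) : ℤ)⟩ : O) + 3 * y := by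
  obtain ⟨p, hp⟩ := fin3 x.re
  obtain ⟨q, hq⟩ := fin3 x.im
  obtain ⟨y, hy⟩ := sm_dvd 3 x
  refine ⟨p, q, y, ?_⟩
  rw [hp, hq]
  exact_mod_cast hy

theorem sq_re (a b : ℤ) : ((⟨a, b⟩ : O) ^ 2).re = a ^ 2 + b ^ 2 := by
  rw [pow_two]
  simp only [QuadraticAlgebra.re_mul]
  ring

theorem sq_im (a b : ℤ) : ((⟨a, b⟩ : O) ^ 2).im = 2 * a * b + b ^ 2 := by
  rw [pow_two]
  simp only [QuadraticAlgebra.im_mul]
  ring

theorem three_iff (m : O) : (∀ x : O, ¬ (3 : O) ∣ m - x ^ 2) ↔ ck3 m.re m.im := by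
  unfold ck3
  constructor
  · intro h p q ⟨h1, h2⟩
    refine h ⟨((p : ℕ) : ℤ), ((q : ℕ) : ℤ)⟩ ?_
    rw [three_dvd_iff, QuadraticAlgebra.re_sub, QuadraticAlgebra.im_sub, sq_re, sq_im]
    exact ⟨h1, h2⟩
  · intro h x hx
    obtain ⟨p, q, y, rfl⟩ := mod3 x
    refine h p q ?_
    have e : m - (⟨((p : ℕ) : ℤ), ((q : ℕ) : ℤ)⟩ : O) ^ 2 =
        (m - ((⟨((p : ℕ) : ℤ), ((q : ℕ) : ℤ)⟩ : O) + 3 * y) ^ 2) +
        3 * (y * (2 * (⟨((p : ℕ) : ℤ), ((q : ℕ) : ℤ)⟩ : O) + 3 * y)) := by ring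
    have h1 : (3 : O) ∣ m - (⟨((p : ℕ) : ℤ), ((q : ℕ) : ℤ)⟩ : O) ^ 2 := by
      rw [e]
      exact dvd_add hx (dvd_mul_right _ _)
    rw [three_dvd_iff, QuadraticAlgebra.re_sub, QuadraticAlgebra.im_sub, sq_re, sq_im] at h1
    exact h1

theorem re4 : (4 : O).re = 4 := by
  have h : (4 : O) = ((4 : ℕ) : O) := by norm_num
  rw [h, QuadraticAlgebra.re_natCast]
  norm_num

theorem im4 : (4 : O).im = 0 := by
  have h : (4 : O) = ((4 : ℕ) : O) := by norm_num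
  rw [h, QuadraticAlgebra.im_natCast]

theorem four_dvd {a b : ℤ} {c : O} (h : (⟨a, b⟩ : O) = 4 * c) : (4 : ℤ) ∣ a ∧ (4 : ℤ) ∣ b ∧
    c.re = a / 4 ∧ c.im = b / 4 := by
  have h1 : a = 4 * c.re := by
    have := congrArg QuadraticAlgebra.re h
    simpa [QuadraticAlgebra.re_mul, re4, im4] using this
  have h2 : b = 4 * c.im := by
    have := congrArg QuadraticAlgebra.im h
    simpa [QuadraticAlgebra.im_mul, re4, im4] using this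
  refine ⟨⟨_, h1⟩, ⟨_, h2⟩, ?_, ?_⟩ <;> omega

theorem two_iff (m : O) : (∃ ν c : O, m + ν ^ 2 = 4 * c ∧ ∀ x : O, ¬ (2 : O) ∣ x ^ 2 + ν * x + c) ↔
    ck2 m.re m.im := by
  unfold ck2
  constructor
  · rintro ⟨ν, c, h1, h2⟩
    obtain ⟨u, v, w, rfl⟩ := mod2 ν
    set ν₀ : O := (⟨((u : ℕ) : ℤ), ((v : ℕ) : ℤ)⟩ : O) with hν₀
    have h3 : m + ν₀ ^ 2 = 4 * (c - w * ν₀ - w ^ 2) := by linear_combination h1
    have h4 : (⟨m.re + (((u : ℕ) : ℤ) ^ 2 + ((v : ℕ) : ℤ) ^ 2),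
        m.im + (2 * ((u : ℕ) : ℤ) * ((v : ℕ) : ℤ) + ((v : ℕ) : ℤ) ^ 2)⟩ : O) =
        4 * (c - w * ν₀ - w ^ 2) := by
      rw [← h3, hν₀]
      ext
      · rw [QuadraticAlgebra.re_add, sq_re]
      · rw [QuadraticAlgebra.im_add, sq_im]
    obtain ⟨d1, d2, d3, d4⟩ := four_dvd h4
    refine ⟨u, v, d1, d2, ?_⟩
    rintro p q ⟨k1, k2⟩
    have h5 : (2 : O) ∣ (⟨((p : ℕ) : ℤ), ((q : ℕ) : ℤ)⟩ : O) ^ 2 +
        ν₀ * (⟨((p : ℕ) : ℤ), ((q : ℕ) : ℤ)⟩ : O) + (c - w * ν₀ - w ^ 2) := by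
      rw [two_dvd_iff]
      constructor
      · rw [QuadraticAlgebra.re_add, QuadraticAlgebra.re_add, sq_re, d3, hν₀,
          QuadraticAlgebra.re_mul]
        simpa only [one_mul] using k1
      · rw [QuadraticAlgebra.im_add, QuadraticAlgebra.im_add, sq_im, d4, hν₀,
          QuadraticAlgebra.im_mul]
        simpa only [one_mul] using k2
    refine h2 ((⟨((p : ℕ) : ℤ), ((q : ℕ) : ℤ)⟩ : O) - w) ?_
    set x : O := (⟨((p : ℕ) : ℤ), ((q : ℕ) : ℤ)⟩ : O) with hx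
    have e : (x - w) ^ 2 + (ν₀ + 2 * w) * (x - w) + c =
        (x ^ 2 + ν₀ * x + (c - w * ν₀ - w ^ 2)) := by ring
    rw [e]
    exact h5
  · rintro ⟨u, v, d1, d2, h⟩
    set ν₀ : O := (⟨((u : ℕ) : ℤ), ((v : ℕ) : ℤ)⟩ : O) with hν₀
    obtain ⟨c1, hc1⟩ := d1
    obtain ⟨c2, hc2⟩ := d2
    rw [hc1, hc2] at h
    have hd1 : 4 * c1 / 4 = c1 := by omega
    have hd2 : 4 * c2 / 4 = c2 := by omega
    rw [hd1, hd2] at h
    refine ⟨ν₀, ⟨c1, c2⟩, ?_, ?_⟩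
    · ext
      · rw [QuadraticAlgebra.re_add, sq_re, hc1]
        simp [QuadraticAlgebra.re_mul, re4, im4]
      · rw [QuadraticAlgebra.im_add, sq_im, hc2]
        simp [QuadraticAlgebra.im_mul, re4, im4]
    · intro x hx
      obtain ⟨p, q, y, rfl⟩ := mod2 x
      refine h p q ?_
      set x₀ : O := (⟨((p : ℕ) : ℤ), ((q : ℕ) : ℤ)⟩ : O) with hx₀
      have e : x₀ ^ 2 + ν₀ * x₀ + (⟨c1, c2⟩ : O) =
          ((x₀ + 2 * y) ^ 2 + ν₀ * (x₀ + 2 * y) + (⟨c1, c2⟩ : O)) -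
            2 * (y * (2 * x₀ + 2 * y) + ν₀ * y) := by ring
      have h5 : (2 : O) ∣ x₀ ^ 2 + ν₀ * x₀ + (⟨c1, c2⟩ : O) := by
        rw [e]
        exact dvd_sub hx (dvd_mul_right _ _)
      rw [two_dvd_iff] at h5
      rw [QuadraticAlgebra.re_add, QuadraticAlgebra.re_add, QuadraticAlgebra.im_add,
        QuadraticAlgebra.im_add, hx₀, sq_re, sq_im, hν₀, QuadraticAlgebra.re_mul,
        QuadraticAlgebra.im_mul] at h5
      simpa only [one_mul] using h5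

/-- the residue of `m` modulo 24. -/
def rs (m : O) : ℕ × ℕ := ((m.re % 24).toNat, (m.im % 24).toNat)

theorem cls_iff (m : O) : Cls m ↔ rs m ∈ SS := by
  rw [cls_sm]
  have h1 : Cls (sm 24 m) ↔ ck2 (sm 24 m).re (sm 24 m).im ∧ ck3 (sm 24 m).re (sm 24 m).im := by
    rw [← two_iff, ← three_iff]
    exact ⟨fun h => ⟨h.two, h.three⟩, fun h => ⟨h.1, h.2⟩⟩
  rw [h1]
  have e1 : (((m.re % 24).toNat : ℕ) : ℤ) = m.re % 24 := by omega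
  have e2 : (((m.im % 24).toNat : ℕ) : ℤ) = m.im % 24 := by omega
  simp only [SS, Finset.mem_filter, Finset.mem_product, Finset.mem_range, rs, sm, e1, e2,
    Nat.cast_ofNat]
  constructor
  · intro h
    refine ⟨⟨?_, ?_⟩, h⟩ <;> omega
  · intro h
    exact h.2

end Pool.Agent.Leo4.H5
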