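import Pool.Agent.Helper5_Leo4.Mct

/-!
# Module MCT of the squad leo4: the limit
-/

set_option autoImplicit false

open Filter Topology MeasureTheory Set Pointwise

namespace Pool.Agent.Leo4.H5

open Pool.Agent.Leo4

/-- the linear map of the lattice `24 O`. -/
noncomputable def AA : E2 →ₗ[ℝ] E2 :=
  Matrix.toLin (Module.Basis.finTwoProd ℝ) (Module.Basis.finTwoProd ℝ)
    !![24, 24 * Real.goldenRatio; 24, 24 * Real.goldenConj]

theorem AA_apply (w : E2) : AA w = (24 * w.1 + 24 * Real.goldenRatio * w.2,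
    24 * w.1 + 24 * Real.goldenConj * w.2) := by
  rw [AA, Matrix.toLin_finTwoProd_apply]

theorem det_AA : LinearMap.det AA = -(576 * Real.sqrt 5) := by
  rw [AA, LinearMap.det_toLin, Matrix.det_fin_two_of]
  have h1 : Real.goldenRatio - Real.goldenConj = Real.sqrt 5 := Real.goldenRatio_sub_goldenConj
  linear_combination (-576 : ℝ) * h1

theorem abs_det_AA : |LinearMap.det AA| = 576 * Real.sqrt 5 := by
  rw [det_AA, abs_neg, abs_of_nonneg (by positivity)]

theorem AA_inj : Function.Injective AA := by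
  have h : LinearMap.det AA ≠ 0 := by
    rw [det_AA]
    have : 0 < Real.sqrt 5 := by positivity
    intro h0
    nlinarith
  exact (LinearMap.equivOfDetNeZero AA h).injective

theorem AA_surj : Function.Surjective AA := by
  have h : LinearMap.det AA ≠ 0 := by
    rw [det_AA]
    have : 0 < Real.sqrt 5 := by positivity
    intro h0
    nlinarith
  exact (LinearMap.equivOfDetNeZero AA h).surjective

def Q : Set E2 := Ico (0 : ℝ) 1 ×ˢ Ico (0 : ℝ) 1

/-- the cell. -/
noncomputable def FF : Set E2 := AA '' Q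

theorem meas_Q : MeasurableSet Q := measurableSet_Ico.prod measurableSet_Ico

theorem vol_Q : volume Q = 1 := by
  rw [Q, Measure.volume_eq_prod, Measure.prod_prod, Real.volume_Ico]
  simp

theorem vol_FF : volume FF = ENNReal.ofReal (576 * Real.sqrt 5) := by
  rw [FF, Measure.addHaar_image_linearMap, abs_det_AA, vol_Q, mul_one]

theorem meas_FF : MeasurableSet FF := by
  have h : LinearMap.det AA ≠ 0 := by
    rw [det_AA]
    have : 0 < Real.sqrt 5 := by positivity
    intro h0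
    nlinarith
  have h1 : FF = (LinearMap.equivOfDetNeZero AA h).toContinuousLinearEquiv '' Q := rfl
  rw [h1]
  exact ((LinearMap.equivOfDetNeZero AA h).toContinuousLinearEquiv.toHomeomorph.measurableEmbedding.measurableSet_image).2
    meas_Q

/-- the embedding of `O`. -/
noncomputable def emb2 (m : O) : E2 := (e1 m, e2 m)

theorem emb2_eq (m : O) : emb2 m = AA ((m.re : ℝ) / 24, (m.im : ℝ) / 24) := by
  rw [AA_apply, emb2, e1, e2, ev, ev]
  ext
  · simp only
    ring
  · simp only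
    ring

theorem emb2_inj : Function.Injective emb2 := by
  intro x y h
  exact e1_inj (congrArg Prod.fst h)

/-- the points of one class. -/
def LL (r : ℕ × ℕ) : Set E2 := emb2 '' {m : O | rs m = r}

theorem sub_eq {m k : O} (h : rs m = rs k) : ∃ a b : ℤ, m.re - k.re = 24 * a ∧
    m.im - k.im = 24 * b := by
  unfold rs at h
  have h1 : (m.re % 24).toNat = (k.re % 24).toNat := congrArg Prod.fst h
  have h2 : (m.im % 24).toNat = (k.im % 24).toNat := congrArg Prod.snd h
  refine ⟨(m.re - k.re) / 24, (m.im - k.im) / 24, ?_, ?_⟩ <;> omega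

theorem int_zero {a : ℤ} {x y : ℝ} (hx : x ∈ Ico (0 : ℝ) 1) (hy : y ∈ Ico (0 : ℝ) 1)
    (h : (a : ℝ) + x = y) : a = 0 := by
  have h1 : (a : ℝ) < 1 := by have := hx.1; have := hy.2; linarith
  have h2 : (-1 : ℝ) < a := by have := hx.2; have := hy.1; linarith
  have h1' : a < 1 := by exact_mod_cast h1
  have h2' : -1 < a := by exact_mod_cast h2
  omega

theorem cell (r : ℕ × ℕ) (hr : r ∈ SS) : Cell (LL r) FF 100 := by
  have hs5 : 0 < Real.sqrt 5 := by positivity
  have hr1 : r.1 < 24 ∧ r.2 < 24 := by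
    have := (Finset.mem_filter.1 hr).1
    simpa using this
  refine ⟨?_, meas_FF, ?_, ?_, ?_, ?_, ?_⟩
  · refine Set.Countable.image ?_ _
    have hinj : Function.Injective (fun m : O => (m.re, m.im)) := by
      intro x y h
      exact QuadraticAlgebra.ext (congrArg Prod.fst h) (congrArg Prod.snd h)
    have : Countable O := hinj.countable
    exact Set.to_countable _
  · rw [vol_FF, ENNReal.ofReal_pos]
    positivity
  · rw [vol_FF]
    exact ENNReal.ofReal_ne_top
  · rintro _ ⟨w, ⟨hw1, hw2⟩, rfl⟩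
    rw [AA_apply, Prod.norm_def, max_le_iff, Real.norm_eq_abs, Real.norm_eq_abs, abs_le, abs_le]
    have g1 := Real.goldenRatio_pos
    have g2 := Real.goldenRatio_lt_two
    have g3 := Real.goldenConj_neg
    have g4 := Real.neg_one_lt_goldenConj
    have a1 := hw1.1
    have a2 := hw1.2
    have a3 := hw2.1
    have a4 := hw2.2
    simp only
    refine ⟨⟨?_, ?_⟩, ⟨?_, ?_⟩⟩ <;> nlinarith
  · rintro _ ⟨m, hm, rfl⟩ _ ⟨k, hk, rfl⟩ hne
    rw [Set.disjoint_left]
    rintro _ ⟨_, ⟨w, ⟨hw1, hw2⟩, rfl⟩, rfl⟩ ⟨_, ⟨v, ⟨hv1, hv2⟩, rfl⟩, h⟩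
    refine hne ?_
    simp only at h
    rw [emb2_eq, emb2_eq, ← map_add, ← map_add] at h
    have h1 := AA_inj h
    have h2 : rs m = rs k := by
      rw [mem_ofPred_eq] at hm hk
      rw [hm, hk]
    obtain ⟨a, b, ha, hb⟩ := sub_eq h2
    have h3 : (k.re : ℝ) / 24 + v.1 = (m.re : ℝ) / 24 + w.1 := congrArg Prod.fst h1
    have h4 : (k.im : ℝ) / 24 + v.2 = (m.im : ℝ) / 24 + w.2 := congrArg Prod.snd h1
    have ha' : (m.re : ℝ) - k.re = 24 * a := by exact_mod_cast ha
    have hb' : (m.im : ℝ) - k.im = 24 * b := by exact_mod_cast hb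
    have ha0 : a = 0 := int_zero hw1 hv1 (by linarith)
    have hb0 : b = 0 := int_zero hw2 hv2 (by linarith)
    rw [ha0] at ha
    rw [hb0] at hb
    have : m = k := QuadraticAlgebra.ext (by linarith) (by linarith)
    rw [this]
  · intro x
    obtain ⟨u, rfl⟩ := AA_surj x
    obtain ⟨a, ha⟩ : ∃ a : ℤ, a = ⌊u.1 - (r.1 : ℝ) / 24⌋ := ⟨_, rfl⟩
    obtain ⟨b, hb⟩ : ∃ b : ℤ, b = ⌊u.2 - (r.2 : ℝ) / 24⌋ := ⟨_, rfl⟩
    refine ⟨emb2 ⟨r.1 + 24 * a, r.2 + 24 * b⟩, ⟨_, ?_, rfl⟩, ?_⟩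
    · rw [mem_ofPred_eq, rs]
      ext
      · simp only
        omega
      · simp only
        omega
    · refine ⟨AA (Int.fract (u.1 - (r.1 : ℝ) / 24), Int.fract (u.2 - (r.2 : ℝ) / 24)),
        ⟨_, ⟨⟨Int.fract_nonneg _, Int.fract_lt_one _⟩, ⟨Int.fract_nonneg _, Int.fract_lt_one _⟩⟩,
          rfl⟩, ?_⟩
      simp only
      rw [emb2_eq, ← map_add]
      congr 1
      ext
      · simp only [Prod.fst_add, Int.fract, ← ha]
        push_cast
        ring
      · simp only [Prod.snd_add, Int.fract, ← hb]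
        push_cast
        ring

/-- the set counted. -/
def MM (N : ℝ) : Set O := {m : O | Fd m ∧ Cls m ∧ (nm m : ℝ) ≤ N}

theorem mem_MM {t : ℝ} (ht : 0 < t) (m : O) : m ∈ MM (t ^ 2) ↔ rs m ∈ SS ∧ emb2 m ∈ t • RD := by
  rw [mem_smul_RD ht, MM, mem_ofPred_eq, cls_iff, nm_eq, Fd, emb2]
  constructor
  · rintro ⟨⟨h1, h2, h3, h4⟩, h5, h6⟩
    exact ⟨h5, h1, h2, h3, h4, h6⟩
  · rintro ⟨h5, h1, h2, h3, h4, h6⟩
    exact ⟨⟨h1, h2, h3, h4⟩, h5, h6⟩

theorem fiber {t : ℝ} (ht : 0 < t) (r : ℕ × ℕ) (hr : r ∈ SS) :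
    emb2 '' {m | m ∈ MM (t ^ 2) ∧ rs m = r} = LL r ∩ t • RD := by
  ext x
  constructor
  · rintro ⟨m, ⟨h1, h2⟩, rfl⟩
    exact ⟨⟨m, h2, rfl⟩, ((mem_MM ht m).1 h1).2⟩
  · rintro ⟨⟨m, h1, rfl⟩, h2⟩
    rw [mem_ofPred_eq] at h1
    exact ⟨m, ⟨(mem_MM ht m).2 ⟨h1 ▸ hr, h2⟩, h1⟩, rfl⟩

theorem fin_RD {t : ℝ} (ht : 0 < t) (r : ℕ × ℕ) (hr : r ∈ SS) : (LL r ∩ t • RD).Finite :=
  (limit (cell r hr) RD RU RK ru_open ru_sub rd_sub rk_compact (volU.trans volK.symm)).1 t ht

theorem fin_MM {t : ℝ} (ht : 0 < t) : (MM (t ^ 2)).Finite := by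
  have h1 : MM (t ^ 2) ⊆ ⋃ r ∈ SS, {m | m ∈ MM (t ^ 2) ∧ rs m = r} := by
    intro m hm
    simp only [mem_iUnion, exists_prop]
    exact ⟨rs m, ((mem_MM ht m).1 hm).1, hm, rfl⟩
  refine Set.Finite.subset ?_ h1
  refine Set.Finite.biUnion SS.finite_toSet fun r hr => ?_
  have h2 := fin_RD ht r hr
  rw [← fiber ht r hr] at h2
  exact Set.Finite.of_finite_image h2 emb2_inj.injOn

theorem card_MM {t : ℝ} (ht : 0 < t) :
    (MM (t ^ 2)).ncard = ∑ r ∈ SS, (LL r ∩ t • RD).ncard := by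
  classical
  have hf := fin_MM ht
  rw [Set.ncard_eq_toFinset_card _ hf, Finset.card_eq_sum_card_fiberwise (f := rs) (t := SS)]
  · refine Finset.sum_congr rfl fun r hr => ?_
    rw [← fiber ht r hr, Set.ncard_image_of_injective _ emb2_inj, ← Set.ncard_coe_finset]
    congr 1
    ext m
    simp [Set.Finite.mem_toFinset]
  · intro m hm
    rw [Finset.mem_coe, hf.mem_toFinset] at hm
    exact ((mem_MM ht m).1 hm).1

theorem lim_MM : Tendsto (fun t : ℝ => ((MM (t ^ 2)).ncard : ℝ) / t ^ 2) atTop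
    (𝓝 (Real.log Real.goldenRatio / (12 * Real.sqrt 5))) := by
  have h1 : ∀ r ∈ SS, Tendsto (fun t : ℝ => ((LL r ∩ t • RD).ncard : ℝ) / t ^ 2) atTop
      (𝓝 ((volume RK).toReal / (volume FF).toReal)) := fun r hr =>
    (limit (cell r hr) RD RU RK ru_open ru_sub rd_sub rk_compact (volU.trans volK.symm)).2
  have h2 := tendsto_finsetSum SS h1
  have hs5 : 0 < Real.sqrt 5 := by positivity
  have h3 : ∑ r ∈ SS, ((volume RK).toReal / (volume FF).toReal) =
      Real.log Real.goldenRatio / (12 * Real.sqrt 5) := by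
    rw [Finset.sum_const, card_SS, volK_eq, vol_FF, ENNReal.toReal_ofReal, ENNReal.toReal_ofReal
      (by positivity), nsmul_eq_mul]
    · field_simp
      ring
    · have := Real.log_nonneg gone.le
      linarith
  rw [h3] at h2
  refine h2.congr' ?_
  filter_upwards [eventually_gt_atTop (0 : ℝ)] with t ht
  rw [card_MM ht]
  push_cast
  rw [Finset.sum_div]

theorem MM_small {N : ℝ} (hN : N < 1) : MM N = ∅ := by
  ext m
  simp only [mem_empty_iff_false, iff_false]
  rintro ⟨⟨h1, h2, -⟩, -, h3⟩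
  have h4 : (0 : ℝ) < (nm m : ℝ) := by
    rw [nm_eq]
    positivity
  have h5 : (0 : ℤ) < nm m := by exact_mod_cast h4
  have h6 : (1 : ℤ) ≤ nm m := h5
  have h7 : (1 : ℝ) ≤ (nm m : ℝ) := by exact_mod_cast h6
  linarith

/-- MCT. -/
theorem mct (hbox : BoxStmt) : MctStmt := by
  have hsq : ∀ N : ℝ, 0 < N → (Real.sqrt N) ^ 2 = N := fun N hN => Real.sq_sqrt hN.le
  refine ⟨?_, ?_, ?_⟩
  · intro N
    rcases lt_or_ge N 1 with h | h
    · have := MM_small h
      rw [MM] at this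
      rw [this]
      exact Set.finite_empty
    · have h0 : 0 < N := by linarith
      have h1 := fin_MM (Real.sqrt_pos.2 h0)
      rw [hsq N h0] at h1
      exact h1
  · have hg := gpos
    refine ⟨gg ^ 2 + 1, fun N hN => ?_⟩
    rcases lt_or_ge N 1 with h | h
    · have h1 := MM_small h
      rw [MM] at h1
      rw [h1, Set.ncard_empty, Nat.cast_zero]
      positivity
    · have hsN : 0 ≤ gg * Real.sqrt N := by positivity
      obtain ⟨h1, h2⟩ := hbox 0 0 (gg * Real.sqrt N) (gg * Real.sqrt N) hsN hsN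
      have h3 : {m : O | Fd m ∧ Cls m ∧ (nm m : ℝ) ≤ N} ⊆
          {x : O | 0 ≤ e1 x ∧ e1 x ≤ 0 + gg * Real.sqrt N ∧ 0 ≤ e2 x ∧
            e2 x ≤ 0 + gg * Real.sqrt N} := by
        rintro m ⟨⟨a1, a2, a3, a4⟩, -, a5⟩
        rw [nm_eq] at a5
        have b1 : e1 m ^ 2 ≤ gg ^ 2 * N := by
          have := mul_le_mul_of_nonneg_left a3.le a1.le
          have := mul_le_mul_of_nonneg_left a5 (sq_nonneg gg)
          nlinarith
        have b2 : e2 m ^ 2 ≤ gg ^ 2 * N := by
          have := mul_le_mul_of_nonneg_left a4 a2.le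
          have := mul_le_mul_of_nonneg_left a5 (sq_nonneg gg)
          nlinarith
        have c1 : (gg * Real.sqrt N) ^ 2 = gg ^ 2 * N := by
          rw [mul_pow, hsq N hN]
        refine ⟨a1.le, ?_, a2.le, ?_⟩
        · rw [zero_add]
          refine abs_le_of_sq_le_sq' (by rw [c1]; exact b1) hsN |>.2
        · rw [zero_add]
          refine abs_le_of_sq_le_sq' (by rw [c1]; exact b2) hsN |>.2
      have h4 : ({m : O | Fd m ∧ Cls m ∧ (nm m : ℝ) ≤ N}.ncard : ℝ) ≤
          gg * Real.sqrt N * (gg * Real.sqrt N) + 1 := by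
        refine le_trans ?_ h2
        exact_mod_cast Set.ncard_le_ncard h3 h1
      have h5 : gg * Real.sqrt N * (gg * Real.sqrt N) = gg ^ 2 * N := by
        rw [← pow_two, mul_pow, hsq N hN]
      rw [h5] at h4
      nlinarith
  · have h1 := lim_MM.comp Real.tendsto_sqrt_atTop
    refine h1.congr' ?_
    filter_upwards [eventually_gt_atTop (0 : ℝ)] with N hN
    simp only [Function.comp_apply]
    rw [hsq N hN]
    rfl

end Pool.Agent.Leo4.H5
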