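import Pool.Agent.Helper5_Leo4.Cell

/-!
# The region of module MCT: volume
-/

set_option autoImplicit false

open Filter Topology MeasureTheory Set Pointwise

namespace Pool.Agent.Leo4.H5

noncomputable abbrev gg : ℝ := Real.goldenRatio

theorem gpos : 0 < gg := Real.goldenRatio_pos

theorem gone : 1 < gg := Real.one_lt_goldenRatio

def RD : Set E2 := {w | 0 < w.1 ∧ 0 < w.2 ∧ w.1 < gg ^ 2 * w.2 ∧ w.2 ≤ gg ^ 2 * w.1 ∧ w.1 * w.2 ≤ 1}

def RU : Set E2 := {w | 0 < w.1 ∧ 0 < w.2 ∧ w.1 < gg ^ 2 * w.2 ∧ w.2 < gg ^ 2 * w.1 ∧ w.1 * w.2 < 1}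

def RK : Set E2 := {w | 0 ≤ w.1 ∧ 0 ≤ w.2 ∧ w.1 ≤ gg ^ 2 * w.2 ∧ w.2 ≤ gg ^ 2 * w.1 ∧ w.1 * w.2 ≤ 1}

theorem ru_sub : RU ⊆ RD := fun _ h => ⟨h.1, h.2.1, h.2.2.1, h.2.2.2.1.le, h.2.2.2.2.le⟩

theorem rd_sub : RD ⊆ RK := fun _ h => ⟨h.1.le, h.2.1.le, h.2.2.1.le, h.2.2.2.1, h.2.2.2.2⟩

theorem ru_open : IsOpen RU := by
  refine (isOpen_lt continuous_const continuous_fst).inter
    ((isOpen_lt continuous_const continuous_snd).inter
    ((isOpen_lt continuous_fst (continuous_const.mul continuous_snd)).inter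
    ((isOpen_lt continuous_snd (continuous_const.mul continuous_fst)).inter
    (isOpen_lt (continuous_fst.mul continuous_snd) continuous_const))))

theorem rk_closed : IsClosed RK := by
  refine (isClosed_le continuous_const continuous_fst).inter
    ((isClosed_le continuous_const continuous_snd).inter
    ((isClosed_le continuous_fst (continuous_const.mul continuous_snd)).inter
    ((isClosed_le continuous_snd (continuous_const.mul continuous_fst)).inter
    (isClosed_le (continuous_fst.mul continuous_snd) continuous_const))))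

theorem rk_le {w : E2} (h : w ∈ RK) : w.1 ≤ gg ∧ w.2 ≤ gg := by
  obtain ⟨h1, h2, h3, h4, h5⟩ := h
  have hg := gpos
  have hg2 : 0 < gg ^ 2 := by positivity
  constructor
  · by_contra hc
    push Not at hc
    nlinarith [mul_le_mul_of_nonneg_left h3 h1, mul_le_mul_of_nonneg_left h5 hg2.le]
  · by_contra hc
    push Not at hc
    nlinarith [mul_le_mul_of_nonneg_left h4 h2, mul_le_mul_of_nonneg_left h5 hg2.le]

theorem rk_compact : IsCompact RK := by
  have h0 : IsCompact (Icc (0 : ℝ) gg ×ˢ Icc (0 : ℝ) gg) := isCompact_Icc.prod isCompact_Icc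
  refine IsCompact.of_isClosed_subset h0 rk_closed ?_
  intro w h
  obtain ⟨h1, h2⟩ := rk_le h
  exact ⟨⟨h.1, h1⟩, ⟨h.2.1, h2⟩⟩

noncomputable def hh (x : ℝ) : ℝ := min (gg ^ 2 * x) x⁻¹ - x / gg ^ 2

theorem secK {x : ℝ} (hx : x ≠ 0) : volume (Prod.mk x ⁻¹' RK) =
    (Ioi (0 : ℝ)).indicator (fun x => ENNReal.ofReal (hh x)) x := by
  rcases lt_or_gt_of_ne hx with h | h
  · rw [indicator_of_notMem (by simpa using h.le)]
    have : Prod.mk x ⁻¹' RK = ∅ := by
      ext y
      simp only [mem_preimage, mem_empty_iff_false, iff_false]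
      intro hy
      exact absurd hy.1 (by simpa using h)
    rw [this, measure_empty]
  · rw [indicator_of_mem (by simpa using h)]
    have : Prod.mk x ⁻¹' RK = Icc (x / gg ^ 2) (min (gg ^ 2 * x) x⁻¹) := by
      ext y
      have hg2 : 0 < gg ^ 2 := by have := gpos; positivity
      simp only [mem_preimage, RK, mem_ofPred_eq, mem_Icc, le_min_iff, div_le_iff₀ hg2]
      constructor
      · rintro ⟨-, h2, h3, h4, h5⟩
        refine ⟨by linarith, h4, ?_⟩
        rw [← one_div, le_div_iff₀ h]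
        linarith
      · rintro ⟨h1, h2, h3⟩
        rw [← one_div, le_div_iff₀ h] at h3
        refine ⟨h.le, ?_, by linarith, h2, by linarith⟩
        by_contra hc
        push Not at hc
        nlinarith
    rw [this, Real.volume_Icc]
    rfl

theorem secU {x : ℝ} (hx : x ≠ 0) : volume (Prod.mk x ⁻¹' RU) =
    (Ioi (0 : ℝ)).indicator (fun x => ENNReal.ofReal (hh x)) x := by
  rcases lt_or_gt_of_ne hx with h | h
  · rw [indicator_of_notMem (by simpa using h.le)]
    have : Prod.mk x ⁻¹' RU = ∅ := by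
      ext y
      simp only [mem_preimage, mem_empty_iff_false, iff_false]
      intro hy
      exact absurd hy.1 (by simpa using h.le)
    rw [this, measure_empty]
  · rw [indicator_of_mem (by simpa using h)]
    have : Prod.mk x ⁻¹' RU = Ioo (x / gg ^ 2) (min (gg ^ 2 * x) x⁻¹) := by
      ext y
      have hg2 : 0 < gg ^ 2 := by have := gpos; positivity
      simp only [mem_preimage, RU, mem_ofPred_eq, mem_Ioo, lt_min_iff, div_lt_iff₀ hg2]
      constructor
      · rintro ⟨-, h2, h3, h4, h5⟩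
        refine ⟨by linarith, h4, ?_⟩
        rw [← one_div, lt_div_iff₀ h]
        linarith
      · rintro ⟨h1, h2, h3⟩
        rw [← one_div, lt_div_iff₀ h] at h3
        refine ⟨h, ?_, by linarith, h2, by linarith⟩
        by_contra hc
        push Not at hc
        nlinarith
    rw [this, Real.volume_Ioo]
    rfl

theorem ae_ne_zero' : ∀ᵐ x : ℝ ∂volume, x ≠ 0 := by
  have h : volume ({0} : Set ℝ) = 0 := by simp
  exact compl_mem_ae_iff.2 h

theorem volK : volume RK = ∫⁻ x in Ioi (0 : ℝ), ENNReal.ofReal (hh x) := by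
  rw [Measure.volume_eq_prod, Measure.prod_apply rk_closed.measurableSet,
    ← lintegral_indicator measurableSet_Ioi]
  refine lintegral_congr_ae ?_
  filter_upwards [ae_ne_zero'] with x hx
  exact secK hx

theorem volU : volume RU = ∫⁻ x in Ioi (0 : ℝ), ENNReal.ofReal (hh x) := by
  rw [Measure.volume_eq_prod, Measure.prod_apply ru_open.measurableSet,
    ← lintegral_indicator measurableSet_Ioi]
  refine lintegral_congr_ae ?_
  filter_upwards [ae_ne_zero'] with x hx
  exact secU hx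

theorem hh_small {x : ℝ} (h0 : 0 < x) (h1 : x ≤ gg⁻¹) : hh x = (gg ^ 2 - (gg ^ 2)⁻¹) * x := by
  have hg := gpos
  unfold hh
  rw [min_eq_left]
  · field_simp
  · rw [← one_div, le_div_iff₀ h0]
    have : gg * x ≤ 1 := by
      have := mul_le_mul_of_nonneg_left h1 hg.le
      rwa [mul_inv_cancel₀ hg.ne'] at this
    have h2 : 0 ≤ gg * x := by positivity
    nlinarith

theorem hh_mid {x : ℝ} (h1 : gg⁻¹ ≤ x) : hh x = x⁻¹ - x / gg ^ 2 := by
  have hg := gpos
  have h0 : 0 < x := lt_of_lt_of_le (by positivity) h1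
  unfold hh
  rw [min_eq_right]
  rw [← one_div, div_le_iff₀ h0]
  have : 1 ≤ gg * x := by
    have := mul_le_mul_of_nonneg_left h1 hg.le
    rwa [mul_inv_cancel₀ hg.ne'] at this
  nlinarith

theorem hh_large {x : ℝ} (h1 : gg ≤ x) : hh x ≤ 0 := by
  have hg := gpos
  have h0 : 0 < x := lt_of_lt_of_le hg h1
  unfold hh
  have h2 : x⁻¹ ≤ x / gg ^ 2 := by
    rw [le_div_iff₀ (by positivity), ← one_div, div_mul_eq_mul_div, one_mul, div_le_iff₀ h0]
    nlinarith
  linarith [min_le_right (gg ^ 2 * x) x⁻¹]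

theorem hh_nonneg {x : ℝ} (h0 : 0 < x) (h1 : x ≤ gg) : 0 ≤ hh x := by
  have hg := gpos
  have hg1 := gone
  unfold hh
  rw [sub_nonneg, le_min_iff]
  constructor
  · rw [div_le_iff₀ (by positivity)]
    have h2 : 1 ≤ gg ^ 2 := by nlinarith
    have h3 : 1 ≤ gg ^ 2 * gg ^ 2 := by nlinarith
    nlinarith
  · rw [div_le_iff₀ (by positivity), ← one_div, div_mul_eq_mul_div, one_mul, le_div_iff₀ h0]
    nlinarith

theorem int_hh : IntervalIntegrable hh volume 0 gg ∧ ∫ x in (0 : ℝ)..gg, hh x = 2 * Real.log gg := by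
  have hg := gpos
  have hg1 := gone
  have hi : 0 < gg⁻¹ := by positivity
  have hle : gg⁻¹ ≤ gg := (inv_le_one_of_one_le₀ hg1.le).trans hg1.le
  have e1 : EqOn hh (fun x => (gg ^ 2 - (gg ^ 2)⁻¹) * x) (Ioc 0 gg⁻¹) :=
    fun x hx => hh_small hx.1 hx.2
  have e2 : EqOn hh (fun x => x⁻¹ - x / gg ^ 2) (Icc gg⁻¹ gg) :=
    fun x hx => hh_mid hx.1
  have hc2 : ContinuousOn (fun x : ℝ => x⁻¹) (uIcc gg⁻¹ gg) := by
    rw [uIcc_of_le hle]
    exact continuousOn_inv₀.mono fun x hx => (lt_of_lt_of_le hi hx.1).ne'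
  have hii1 : IntervalIntegrable (fun x => (gg ^ 2 - (gg ^ 2)⁻¹) * x) volume 0 gg⁻¹ :=
    (continuous_const.mul continuous_id).intervalIntegrable _ _
  have hii2a : IntervalIntegrable (fun x : ℝ => x⁻¹) volume gg⁻¹ gg := hc2.intervalIntegrable
  have hii2b : IntervalIntegrable (fun x : ℝ => x / gg ^ 2) volume gg⁻¹ gg :=
    (continuous_id.div_const _).intervalIntegrable _ _
  have i1 : IntervalIntegrable hh volume 0 gg⁻¹ := by
    refine hii1.congr ?_
    rw [uIoc_of_le hi.le]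
    exact fun x hx => (e1 hx).symm
  have i2 : IntervalIntegrable hh volume gg⁻¹ gg := by
    refine (hii2a.sub hii2b).congr ?_
    rw [uIoc_of_le hle]
    exact fun x hx => (e2 ⟨hx.1.le, hx.2⟩).symm
  refine ⟨i1.trans i2, ?_⟩
  rw [← intervalIntegral.integral_add_adjacent_intervals i1 i2]
  have v1 : ∫ x in (0 : ℝ)..gg⁻¹, hh x = (gg ^ 2 - (gg ^ 2)⁻¹) * ((gg⁻¹) ^ 2 / 2) := by
    rw [intervalIntegral.integral_congr_ae (g := fun x => (gg ^ 2 - (gg ^ 2)⁻¹) * x),
      intervalIntegral.integral_const_mul, integral_id]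
    · ring
    · refine ae_of_all _ fun x hx => ?_
      rw [uIoc_of_le hi.le] at hx
      exact e1 hx
  have v2 : ∫ x in gg⁻¹..gg, hh x = 2 * Real.log gg - (gg ^ 2 - (gg⁻¹) ^ 2) / 2 / gg ^ 2 := by
    rw [intervalIntegral.integral_congr (g := fun x => x⁻¹ - x / gg ^ 2),
      intervalIntegral.integral_sub hii2a hii2b, intervalIntegral.integral_div, integral_id,
      integral_inv_of_pos hi hg]
    · have : gg / gg⁻¹ = gg ^ 2 := by field_simp
      rw [this, Real.log_pow]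
      norm_num
    · rw [uIcc_of_le hle]
      exact e2
  rw [v1, v2]
  have hg0 : gg ≠ 0 := hg.ne'
  generalize gg = y at hg0
  field_simp
  ring

theorem volK_eq : volume RK = ENNReal.ofReal (2 * Real.log gg) := by
  have hg := gpos
  obtain ⟨h1, h2⟩ := int_hh
  rw [volK, ← h2, intervalIntegral.integral_of_le hg.le, ofReal_integral_eq_lintegral_ofReal]
  · have h3 : Ioi (0 : ℝ) = Ioc 0 gg ∪ Ioi gg := (Ioc_union_Ioi_eq_Ioi hg.le).symm
    rw [h3, lintegral_union measurableSet_Ioi (by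
      rw [Set.disjoint_left]
      intro x hx hx2
      exact absurd hx.2 (not_le.2 hx2))]
    have h4 : ∫⁻ x in Ioi gg, ENNReal.ofReal (hh x) = 0 := by
      rw [setLIntegral_congr_fun measurableSet_Ioi (g := fun _ => 0)]
      · simp
      · intro x hx
        exact ENNReal.ofReal_of_nonpos (hh_large (le_of_lt hx))
    rw [h4, add_zero]
  · exact (intervalIntegrable_iff_integrableOn_Ioc_of_le hg.le).1 h1
  · rw [EventuallyLE, ae_restrict_iff' measurableSet_Ioc]
    exact ae_of_all _ fun x hx => hh_nonneg hx.1 hx.2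

theorem mem_smul_RD {t : ℝ} (ht : 0 < t) (w : E2) : w ∈ t • RD ↔
    0 < w.1 ∧ 0 < w.2 ∧ w.1 < gg ^ 2 * w.2 ∧ w.2 ≤ gg ^ 2 * w.1 ∧ w.1 * w.2 ≤ t ^ 2 := by
  rw [Set.mem_smul_set_iff_inv_smul_mem₀ ht.ne']
  simp only [RD, mem_ofPred_eq, Prod.smul_fst, Prod.smul_snd, smul_eq_mul]
  have hi : 0 < t⁻¹ := by positivity
  have e1 : 0 < t⁻¹ * w.1 ↔ 0 < w.1 := by
    exact mul_pos_iff_of_pos_left hi
  have e2 : 0 < t⁻¹ * w.2 ↔ 0 < w.2 := by
    exact mul_pos_iff_of_pos_left hi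
  have e3 : t⁻¹ * w.1 < gg ^ 2 * (t⁻¹ * w.2) ↔ w.1 < gg ^ 2 * w.2 := by
    rw [← mul_assoc, mul_comm (gg ^ 2) t⁻¹, mul_assoc]
    exact mul_lt_mul_iff_right₀ hi
  have e4 : t⁻¹ * w.2 ≤ gg ^ 2 * (t⁻¹ * w.1) ↔ w.2 ≤ gg ^ 2 * w.1 := by
    rw [← mul_assoc, mul_comm (gg ^ 2) t⁻¹, mul_assoc]
    exact mul_le_mul_iff_right₀ hi
  have e5 : t⁻¹ * w.1 * (t⁻¹ * w.2) ≤ 1 ↔ w.1 * w.2 ≤ t ^ 2 := by
    have : t⁻¹ * w.1 * (t⁻¹ * w.2) = w.1 * w.2 / t ^ 2 := by field_simp
    rw [this, div_le_one (by positivity)]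
  rw [e1, e2, e3, e4, e5]

end Pool.Agent.Leo4.H5
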